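import Pool.Agent.helper84.VN.Spec4n

/-! Row `vn:CT4`: intermediate values along an implicit curve. -/

set_option autoImplicit false

open scoped MatrixGroups ContDiff Topology UpperHalfPlane ComplexConjugate ENNReal
open UpperHalfPlane MeasureTheory Filter Set

namespace Pool.Agent.VN

open Pool.Agent.RS Pool.Agent.VQ
open Pool.Agent.VQE (nm)

theorem CT4_proof : CT4_stmt := by
  intro ρ σ ψ h hρ hσ hψ hh hmono hend hl hr
  have hvert : ∀ θ ∈ Icc (-ρ) ρ, ContinuousOn (ψ θ) (Icc (-σ) σ) := by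
    intro θ hθ
    exact hψ.comp (f := fun s => (θ, s)) (by fun_prop) (fun s hs => ⟨hθ, hs⟩)
  have hhor : ∀ s ∈ Icc (-σ) σ, ContinuousOn (fun θ => ψ θ s) (Icc (-ρ) ρ) := by
    intro s hs
    exact hψ.comp (f := fun θ => (θ, s)) (by fun_prop) (fun θ hθ => ⟨hθ, hs⟩)
  have hex : ∀ θ ∈ Icc (-ρ) ρ, ∃ s ∈ Icc (-σ) σ, ψ θ s = 0 := by
    intro θ hθ
    have h1 := intermediate_value_Icc (by linarith : -σ ≤ σ) (hvert θ hθ)
    have h0 : (0:ℝ) ∈ Icc (ψ θ (-σ)) (ψ θ σ) := ⟨(hend θ hθ).1.le, (hend θ hθ).2.le⟩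
    obtain ⟨s, hs, h2⟩ := h1 h0
    exact ⟨s, hs, h2⟩
  choose! s hs hs0 using hex
  have hle : ∀ θ ∈ Icc (-ρ) ρ, ∀ x ∈ Icc (-σ) σ, ∀ y ∈ Icc (-σ) σ, x ≤ y → ψ θ x ≤ ψ θ y := by
    intro θ hθ x hx y hy hxy
    rcases hxy.lt_or_eq with h1 | h1
    · exact (hmono θ hθ x hx y hy h1).le
    · rw [h1]
  have hσ1 : (-σ) ∈ Icc (-σ) σ := ⟨le_rfl, by linarith⟩
  have hσ2 : σ ∈ Icc (-σ) σ := ⟨by linarith, le_rfl⟩
  have hscont : ContinuousOn s (Icc (-ρ) ρ) := by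
    intro θ0 hθ0
    rw [ContinuousWithinAt, Metric.tendsto_nhds]
    intro ε hε
    have hs00 := hs θ0 hθ0
    have hlo : ∀ᶠ θ in 𝓝[Icc (-ρ) ρ] θ0, s θ0 - ε / 2 ≤ s θ := by
      have hm : max (s θ0 - ε / 2) (-σ) ∈ Icc (-σ) σ := ⟨le_max_right _ _, max_le (by linarith [hs00.2]) (by linarith)⟩
      have hneg : ψ θ0 (max (s θ0 - ε / 2) (-σ)) < 0 := by
        rcases le_total (s θ0 - ε / 2) (-σ) with h1 | h1
        · rw [max_eq_right h1]; exact (hend θ0 hθ0).1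
        · have h2 := hmono θ0 hθ0 _ hm _ hs00 (by rw [max_eq_left h1]; linarith)
          rw [hs0 θ0 hθ0] at h2; exact h2
      have h3 := (hhor _ hm) θ0 hθ0
      have h4 := h3.eventually (Iio_mem_nhds hneg)
      filter_upwards [h4, self_mem_nhdsWithin] with θ h5 h6
      by_contra h7
      push Not at h7
      have h8 : s θ ≤ max (s θ0 - ε / 2) (-σ) := le_trans h7.le (le_max_left _ _)
      have h9 := hle θ h6 _ (hs θ h6) _ hm h8
      rw [hs0 θ h6] at h9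
      linarith
    have hup : ∀ᶠ θ in 𝓝[Icc (-ρ) ρ] θ0, s θ ≤ s θ0 + ε / 2 := by
      have hm : min (s θ0 + ε / 2) σ ∈ Icc (-σ) σ := ⟨le_min (by linarith [hs00.1]) (by linarith), min_le_right _ _⟩
      have hpos : 0 < ψ θ0 (min (s θ0 + ε / 2) σ) := by
        rcases le_total (s θ0 + ε / 2) σ with h1 | h1
        · have h2 := hmono θ0 hθ0 _ hs00 _ hm (by rw [min_eq_left h1]; linarith)
          rw [hs0 θ0 hθ0] at h2; exact h2
        · rw [min_eq_right h1]; exact (hend θ0 hθ0).2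
      have h3 := (hhor _ hm) θ0 hθ0
      have h4 := h3.eventually (Ioi_mem_nhds hpos)
      filter_upwards [h4, self_mem_nhdsWithin] with θ h5 h6
      by_contra h7
      push Not at h7
      have h8 : min (s θ0 + ε / 2) σ ≤ s θ := le_trans (min_le_left _ _) h7.le
      have h9 := hle θ h6 _ hm _ (hs θ h6) h8
      rw [hs0 θ h6] at h9
      linarith
    filter_upwards [hlo, hup] with θ h1 h2
    rw [Real.dist_eq, abs_lt]
    constructor <;> linarith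
  have hf : ContinuousOn (fun θ => h θ (s θ)) (Icc (-ρ) ρ) :=
    hh.comp (f := fun θ => (θ, s θ)) (continuousOn_id.prodMk hscont) (fun θ hθ => ⟨hθ, hs θ hθ⟩)
  have hρ1 : (-ρ) ∈ Icc (-ρ) ρ := ⟨le_rfl, by linarith⟩
  have hρ2 : ρ ∈ Icc (-ρ) ρ := ⟨by linarith, le_rfl⟩
  have h1 := intermediate_value_Icc' (by linarith : -ρ ≤ ρ) hf
  have h0 : (0:ℝ) ∈ Icc (h ρ (s ρ)) (h (-ρ) (s (-ρ))) :=
    ⟨(hr _ (hs ρ hρ2) (hs0 ρ hρ2)).le, (hl _ (hs (-ρ) hρ1) (hs0 (-ρ) hρ1)).le⟩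
  obtain ⟨θ, hθ, h2⟩ := h1 h0
  exact ⟨θ, hθ, s θ, hs θ hθ, hs0 θ hθ, h2⟩

end Pool.Agent.VN
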