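import Pool.Agent.helper84.VN.Spec4n

/-! Row `vn:QS4`: sums. -/

set_option autoImplicit false

open scoped MatrixGroups ContDiff Topology UpperHalfPlane ComplexConjugate ENNReal
open UpperHalfPlane MeasureTheory Filter Set

namespace Pool.Agent.VN

open Pool.Agent.RS Pool.Agent.VQ
open Pool.Agent.VQE (nm)

theorem QS4_tele (K ε : ℝ) (N Q : ℕ → ℝ) (hK : 1 ≤ K) (n : ℕ)
    (h : ∀ i < n, Q i + N i ^ 2 / K - K * (ε * N i + ε ^ 2) ≤ Q (i + 1)) :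
    ∀ m ≤ n, Q 0 + (∑ i ∈ Finset.range m, N i ^ 2) / K ≤ Q m + (∑ i ∈ Finset.range m, N i ^ 2) / (2 * K) + m * ((K ^ 3 / 2 + K) * ε ^ 2) := by
  intro m
  have hK0 : 0 < K := by linarith
  induction m with
  | zero => intro _; simp
  | succ m ih =>
    intro hm
    have h1 := ih (by omega)
    have h2 := h m (by omega)
    rw [Finset.sum_range_succ]
    have h3 : K * (ε * N m) ≤ N m ^ 2 / (2 * K) + K ^ 3 / 2 * ε ^ 2 := by
      have h4 : 0 ≤ (N m - K ^ 2 * ε) ^ 2 / (2 * K) := by positivity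
      have h5 : (N m - K ^ 2 * ε) ^ 2 / (2 * K) = N m ^ 2 / (2 * K) + K ^ 3 / 2 * ε ^ 2 - K * (ε * N m) := by
        field_simp
        ring
      linarith
    have h6 : (∑ i ∈ Finset.range m, N i ^ 2 + N m ^ 2) / K = (∑ i ∈ Finset.range m, N i ^ 2) / K + N m ^ 2 / K := by ring
    have h7 : (∑ i ∈ Finset.range m, N i ^ 2 + N m ^ 2) / (2 * K) = (∑ i ∈ Finset.range m, N i ^ 2) / (2 * K) + N m ^ 2 / (2 * K) := by ring
    rw [h6, h7]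
    push_cast
    nlinarith

theorem QS4_proof : QS4_stmt := by
  intro K hK
  have hK0 : 0 < K := by linarith
  have hK2 : 0 < 1 + 2 * K ^ 2 := by positivity
  set L : ℝ := 2 * ((1 + 2 * K ^ 2) * (K ^ 4 + 4 * K ^ 2) + 2 * K ^ 2) with hL
  have hL1 : 1 ≤ L := by
    have : 1 ≤ K ^ 2 := by nlinarith
    have h4 : 0 ≤ (1 + 2 * K ^ 2) * (K ^ 4 + 4 * K ^ 2) := by positivity
    rw [hL]; linarith
  refine ⟨1 / (4 * K * (1 + 2 * K ^ 2)), L, by positivity, hL1, ?_⟩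
  intro n ε N Q hn hε hN hstep hQ0 hQn
  have htele := QS4_tele K ε N Q hK n (fun i hi => (hstep i hi).2) n le_rfl
  set A' : ℝ := ∑ i ∈ Finset.range n, N i ^ 2 with hA'
  set A : ℝ := ∑ i ∈ Finset.range (n + 1), N i ^ 2 with hA
  have hAA : A = A' + N n ^ 2 := by rw [hA, Finset.sum_range_succ]
  have hA'0 : 0 ≤ A' := Finset.sum_nonneg (fun i _ => sq_nonneg _)
  have hA0 : 0 ≤ A := Finset.sum_nonneg (fun i _ => sq_nonneg _)
  have hn1 : (1:ℝ) ≤ n := by exact_mod_cast hn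
  have hlast : N n ^ 2 ≤ 2 * K ^ 2 * (A' + ε ^ 2) := by
    obtain ⟨p, rfl⟩ : ∃ p, n = p + 1 := ⟨n - 1, by omega⟩
    have h1 := (hstep p (by omega)).1
    have h2 := hN (p + 1) le_rfl
    have h3 := hN p (by omega)
    have h4 : N p ^ 2 ≤ A' := Finset.single_le_sum (f := fun i => N i ^ 2) (fun i _ => sq_nonneg _) (Finset.mem_range.2 (Nat.lt_succ_self p))
    have h5 : N (p + 1) ^ 2 ≤ (K * (N p + ε)) ^ 2 := pow_le_pow_left₀ h2 h1 2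
    have h6 : (N p + ε) ^ 2 ≤ 2 * (N p ^ 2 + ε ^ 2) := by nlinarith [sq_nonneg (N p - ε)]
    calc N (p + 1) ^ 2 ≤ (K * (N p + ε)) ^ 2 := h5
      _ = K ^ 2 * (N p + ε) ^ 2 := by ring
      _ ≤ K ^ 2 * (2 * (N p ^ 2 + ε ^ 2)) := by gcongr
      _ ≤ K ^ 2 * (2 * (A' + ε ^ 2)) := by gcongr
      _ = 2 * K ^ 2 * (A' + ε ^ 2) := by ring
  -- A' / (2K) ≤ Q n + ...
  have h1 : A' ≤ 2 * K * Q n + n * ((K ^ 4 + 2 * K ^ 2) * ε ^ 2) := by
    have e1 : A' / K = 2 * (A' / (2 * K)) := by field_simp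
    rw [e1] at htele
    have h2 : A' / (2 * K) ≤ Q n + n * ((K ^ 3 / 2 + K) * ε ^ 2) := by linarith
    rw [div_le_iff₀ (by positivity)] at h2
    nlinarith
  have hmu : 2 * K * (1 / (4 * K * (1 + 2 * K ^ 2)) * A) = A / (2 * (1 + 2 * K ^ 2)) := by
    field_simp
    ring
  have h2 : A' ≤ A / (2 * (1 + 2 * K ^ 2)) + (K ^ 4 + 4 * K ^ 2) * ((n + 1) * ε ^ 2) := by
    have h3 : 2 * K * Q n ≤ A / (2 * (1 + 2 * K ^ 2)) + 2 * K ^ 2 * ((n + 1) * ε ^ 2) := by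
      calc 2 * K * Q n ≤ 2 * K * (1 / (4 * K * (1 + 2 * K ^ 2)) * A + K * ((n + 1) * ε ^ 2)) := by gcongr
        _ = 2 * K * (1 / (4 * K * (1 + 2 * K ^ 2)) * A) + 2 * K ^ 2 * ((n + 1) * ε ^ 2) := by ring
        _ = _ := by rw [hmu]
    have h4 : (n:ℝ) * ((K ^ 4 + 2 * K ^ 2) * ε ^ 2) ≤ (K ^ 4 + 2 * K ^ 2) * ((n + 1) * ε ^ 2) := by
      have : 0 ≤ (K ^ 4 + 2 * K ^ 2) * ε ^ 2 := by positivity
      nlinarith
    linarith
  have h3 : A ≤ A / 2 + ((1 + 2 * K ^ 2) * (K ^ 4 + 4 * K ^ 2) + 2 * K ^ 2) * ((n + 1) * ε ^ 2) := by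
    have h4 : A ≤ (1 + 2 * K ^ 2) * A' + 2 * K ^ 2 * ε ^ 2 := by rw [hAA]; linarith
    have h5 : (1 + 2 * K ^ 2) * A' ≤ (1 + 2 * K ^ 2) * (A / (2 * (1 + 2 * K ^ 2)) + (K ^ 4 + 4 * K ^ 2) * ((n + 1) * ε ^ 2)) := by gcongr
    have h6 : (1 + 2 * K ^ 2) * (A / (2 * (1 + 2 * K ^ 2)) + (K ^ 4 + 4 * K ^ 2) * ((n + 1) * ε ^ 2)) = A / 2 + (1 + 2 * K ^ 2) * (K ^ 4 + 4 * K ^ 2) * ((n + 1) * ε ^ 2) := by
      field_simp
    have h7 : 2 * K ^ 2 * ε ^ 2 ≤ 2 * K ^ 2 * ((n + 1) * ε ^ 2) := by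
      have : 0 ≤ K ^ 2 * ε ^ 2 := by positivity
      nlinarith
    linarith
  have hAL : A ≤ L * ((n + 1) * ε ^ 2) := by rw [hL]; linarith
  have hnn : (0:ℝ) ≤ L * ((n + 1) * ε) := by positivity
  refine ⟨?_, ?_⟩
  · intro i hi
    have h4 : N i ^ 2 ≤ A := Finset.single_le_sum (f := fun i => N i ^ 2) (fun i _ => sq_nonneg _) (Finset.mem_range.2 (Nat.lt_succ_of_le hi))
    refine le_of_sq_le_sq ?_ hnn
    calc N i ^ 2 ≤ A := h4
      _ ≤ L * ((n + 1) * ε ^ 2) := hAL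
      _ ≤ L * ((n + 1) * ε ^ 2) * (L * (n + 1)) := by
          refine le_mul_of_one_le_right (by positivity) ?_
          nlinarith
      _ = (L * ((n + 1) * ε)) ^ 2 := by ring
  · refine le_of_sq_le_sq ?_ hnn
    have h5 := sq_sum_le_card_mul_sum_sq (s := Finset.range (n + 1)) (f := N)
    rw [Finset.card_range] at h5
    push_cast at h5
    calc (∑ i ∈ Finset.range (n + 1), N i) ^ 2 ≤ ((n:ℝ) + 1) * A := h5
      _ ≤ ((n:ℝ) + 1) * (L * ((n + 1) * ε ^ 2)) := by gcongr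
      _ ≤ ((n:ℝ) + 1) * (L * ((n + 1) * ε ^ 2)) * L := by
          refine le_mul_of_one_le_right (by positivity) hL1
      _ = (L * ((n + 1) * ε)) ^ 2 := by ring

end Pool.Agent.VN
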